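import Pool.Agent.Helper20.GT.Stm

/-!
# Affine images and powers
-/

set_option autoImplicit false

open Finset Filter Topology
open scoped Classical

namespace Pool.Agent.Helper20.GT

lemma SQ.mono {Q R : Set ℝ} (h : SQ R) (hQ : Q ⊆ R) : SQ Q := by
  obtain ⟨θ, C, h0, h1, hC, hb, hM⟩ := h
  refine ⟨θ, C, h0, h1, hC, fun q hq => hb q (hQ hq), fun M hM1 => ?_⟩
  obtain ⟨x, hx, hc⟩ := hM M hM1
  exact ⟨x, hx, fun q hq => hc q (hQ hq)⟩

lemma sq_point (a : ℝ) : SQ {a} := by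
  refine ⟨0, |a| + 1, le_rfl, zero_lt_one, by linarith [abs_nonneg a], ?_, fun M hM => ?_⟩
  · rintro q rfl
    linarith
  · refine ⟨fun d => -(a * d), fun d hd => ?_, ?_⟩
    · rw [abs_neg, abs_mul, Nat.abs_cast]
      have h1 : (d : ℝ) ≤ M := by exact_mod_cast hd.le
      have h2 : (0 : ℝ) ≤ d := Nat.cast_nonneg d
      nlinarith [abs_nonneg a]
    · rintro q rfl
      have h1 : cells M (fun d => -(q * (d : ℝ))) q ⊆ {0} := by
        intro z hz
        unfold cells at hz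
        rw [Finset.mem_image] at hz
        obtain ⟨d, -, rfl⟩ := hz
        simp
      have h2 := Finset.card_le_card h1
      rw [Finset.card_singleton] at h2
      have h3 : ((cells M (fun d => -(q * (d : ℝ))) q).card : ℝ) ≤ 1 := by exact_mod_cast h2
      rw [Real.rpow_zero, mul_one]
      linarith [abs_nonneg q]

/-- the integral parts of `b y` for the `y` in one unit cell -/
lemma floor_mem (b y : ℝ) :
    ⌊b * y⌋ ∈ Finset.Icc (⌊b * ⌊y⌋⌋ - (⌈|b|⌉ + 1)) (⌊b * ⌊y⌋⌋ + (⌈|b|⌉ + 1)) := by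
  have h1 : |b * y - b * ⌊y⌋| ≤ ⌈|b|⌉ := by
    have h2 : b * y - b * ⌊y⌋ = b * (y - ⌊y⌋) := by ring
    rw [h2, abs_mul]
    have h3 : |y - ⌊y⌋| ≤ 1 := by
      rw [abs_le]
      constructor
      · linarith [Int.floor_le y]
      · linarith [Int.lt_floor_add_one y]
    calc |b| * |y - ⌊y⌋| ≤ |b| * 1 := mul_le_mul_of_nonneg_left h3 (abs_nonneg b)
      _ = |b| := mul_one _
      _ ≤ ⌈|b|⌉ := Int.le_ceil _
  rw [abs_le] at h1
  have e1 := Int.floor_le (b * y)
  have e2 := Int.lt_floor_add_one (b * y)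
  have e3 := Int.floor_le (b * ⌊y⌋)
  have e4 := Int.lt_floor_add_one (b * ⌊y⌋)
  rw [Finset.mem_Icc]
  constructor
  · have : (⌊b * ⌊y⌋⌋ : ℝ) - (⌈|b|⌉ + 1) < ⌊b * y⌋ + 1 - (0 : ℝ) + 0 := by linarith
    have h5 : (⌊b * ⌊y⌋⌋ : ℝ) - (⌈|b|⌉ + 1) < ⌊b * y⌋ + 1 := by linarith
    have h6 : ⌊b * ⌊y⌋⌋ - (⌈|b|⌉ + 1) < ⌊b * y⌋ + 1 := by exact_mod_cast h5
    omega
  · have h5 : (⌊b * y⌋ : ℝ) < ⌊b * ⌊y⌋⌋ + (⌈|b|⌉ + 1) + 1 := by linarith
    have h6 : ⌊b * y⌋ < ⌊b * ⌊y⌋⌋ + (⌈|b|⌉ + 1) + 1 := by exact_mod_cast h5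
    omega

theorem aff : S_AFF := by
  rintro Q a b ⟨θ, C, h0, h1, hC, hb, hM⟩
  have hθ1 : θ < 1 := h1
  set K : ℝ := 2 * (⌈|b|⌉ + 1) + 1 with hK
  have hceil : |b| ≤ (⌈|b|⌉ : ℝ) := Int.le_ceil _
  have hb0 := abs_nonneg b
  have ha0 := abs_nonneg a
  have hK1 : 1 ≤ K := by rw [hK]; linarith
  have hKb : |b| ≤ K := by rw [hK]; linarith
  refine ⟨θ, (K + |a|) * C, h0, h1, ?_, ?_, fun M hM1 => ?_⟩
  · nlinarith
  · rintro q' ⟨q, hq, rfl⟩
    have h2 := hb q hq
    calc |a + b * q| ≤ |a| + |b| * |q| := by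
          refine (abs_add_le _ _).trans ?_
          rw [abs_mul]
      _ ≤ |a| * C + K * C := by
          refine add_le_add (by nlinarith) ?_
          exact mul_le_mul hKb h2 (abs_nonneg q) (by linarith)
      _ = (K + |a|) * C := by ring
  · obtain ⟨x, hx, hc⟩ := hM M hM1
    refine ⟨fun d => b * x d - a * d, fun d hd => ?_, ?_⟩
    · have h2 := hx d hd
      have h3 : (d : ℝ) ≤ M := by exact_mod_cast hd.le
      have h4 : (0 : ℝ) ≤ d := Nat.cast_nonneg d
      calc |b * x d - a * d| ≤ |b * x d| + |a * d| := abs_sub _ _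
        _ = |b| * |x d| + |a| * d := by rw [abs_mul, abs_mul, Nat.abs_cast]
        _ ≤ K * (C * M) + |a| * (C * M) := by
            refine add_le_add (mul_le_mul hKb h2 (abs_nonneg _) (by linarith)) ?_
            refine mul_le_mul_of_nonneg_left ?_ ha0
            nlinarith
        _ = (K + |a|) * C * M := by ring
    · rintro q' ⟨q, hq, rfl⟩
      have h2 := hc q hq
      have hsub : cells M (fun d => b * x d - a * d) (a + b * q) ⊆
          (cells M x q).biUnion fun c =>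
            Finset.Icc (⌊b * c⌋ - (⌈|b|⌉ + 1)) (⌊b * c⌋ + (⌈|b|⌉ + 1)) := by
        intro z hz
        unfold cells at hz
        rw [Finset.mem_image] at hz
        obtain ⟨d, hd, rfl⟩ := hz
        rw [Finset.mem_biUnion]
        refine ⟨⌊x d + q * d⌋, ?_, ?_⟩
        · unfold cells
          exact Finset.mem_image_of_mem _ hd
        · have := floor_mem b (x d + q * d)
          have e : b * x d - a * d + (a + b * q) * d = b * (x d + q * d) := by ring
          simp only [e]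
          exact this
      have hcard : (cells M (fun d => b * x d - a * d) (a + b * q)).card ≤
          (cells M x q).card * (2 * (⌈|b|⌉ + 1) + 1).toNat := by
        refine (Finset.card_le_card hsub).trans ?_
        refine Finset.card_biUnion_le_card_mul _ _ _ fun c _ => ?_
        rw [Int.card_Icc]
        apply le_of_eq
        congr 1
        ring
      have hce : 0 ≤ ⌈|b|⌉ := Int.ceil_nonneg hb0
      have hKn : ((2 * (⌈|b|⌉ + 1) + 1).toNat : ℝ) = K := by
        rw [hK]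
        have : ((2 * (⌈|b|⌉ + 1) + 1).toNat : ℤ) = 2 * (⌈|b|⌉ + 1) + 1 := Int.toNat_of_nonneg (by omega)
        have h5 : (((2 * (⌈|b|⌉ + 1) + 1).toNat : ℤ) : ℝ) = ((2 * (⌈|b|⌉ + 1) + 1 : ℤ) : ℝ) := by
          rw [this]
        push_cast at h5
        exact h5
      have hcR : ((cells M (fun d => b * x d - a * d) (a + b * q)).card : ℝ) ≤
          (cells M x q).card * K := by
        rw [← hKn]
        exact_mod_cast hcard
      have hM0 : (0 : ℝ) ≤ (M : ℝ) ^ θ := Real.rpow_nonneg (Nat.cast_nonneg M) θ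
      calc ((cells M (fun d => b * x d - a * d) (a + b * q)).card : ℝ)
          ≤ (cells M x q).card * K := hcR
        _ ≤ (C * (M : ℝ) ^ θ) * K := mul_le_mul_of_nonneg_right h2 (by linarith)
        _ ≤ (K + |a|) * C * (M : ℝ) ^ θ := by
            have : 0 ≤ |a| * C * (M : ℝ) ^ θ := by positivity
            nlinarith

lemma base_sub {L : ℝ} (hL : 1 < L) {s : ℕ} (hs : 0 < s) :
    base L ⊆ ⋃ i ∈ Finset.range s, (fun q => 0 + 1 / L ^ i * q) '' base (L ^ s) := by
  intro t ht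
  have hL0 : L ≠ 0 := by positivity
  rw [Set.mem_iUnion₂]
  rcases ht with rfl | ⟨j, hj⟩
  · exact ⟨0, Finset.mem_range.2 hs, 0, Or.inl rfl, by simp⟩
  · refine ⟨j % s, Finset.mem_range.2 (Nat.mod_lt _ hs), ?_⟩
    have e : L ^ j = L ^ (j % s) * (L ^ s) ^ (j / s) := by
      rw [← pow_mul, ← pow_add, Nat.mod_add_div]
    rcases hj with rfl | rfl
    · refine ⟨1 / (L ^ s) ^ (j / s), Or.inr ⟨j / s, Or.inl rfl⟩, ?_⟩
      simp only [zero_add]
      rw [e, one_div_mul_one_div]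
    · refine ⟨-(1 / (L ^ s) ^ (j / s)), Or.inr ⟨j / s, Or.inr rfl⟩, ?_⟩
      simp only [zero_add]
      rw [e, mul_neg, one_div_mul_one_div]

lemma sq_iUnion (UNI : S_UNI) {ι : Type} (s : Finset ι) (Q : ι → Set ℝ) (h : ∀ i ∈ s, SQ (Q i)) :
    SQ (⋃ i ∈ s, Q i) := by
  induction s using Finset.induction_on with
  | empty => exact (sq_point 0).mono (by simp)
  | insert i s hi IH =>
    rw [Finset.set_biUnion_insert]
    exact UNI _ _ (h i (Finset.mem_insert_self i s))
      (IH fun k hk => h k (Finset.mem_insert_of_mem hk))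

theorem pow : S_POW := by
  intro AFF UNI h L hL
  obtain ⟨s, hs⟩ := pow_unbounded_of_one_lt (5 / 2) hL
  have hs0 : 0 < s := by
    rcases Nat.eq_zero_or_pos s with rfl | h0
    · norm_num at hs
    · exact h0
  refine (sq_iUnion UNI (Finset.range s) _ fun i _ => ?_).mono (base_sub hL hs0)
  exact AFF _ _ _ (h _ hs)

end Pool.Agent.Helper20.GT
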