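import Mathlib

/-!
# Upper Minkowski dimension
-/

set_option autoImplicit false

open Finset Filter Topology
open scoped Classical

namespace Pool.Agent.Helper20.GT2

/-- The least number of sets of diameter at most `δ` covering `B` (for bounded `B`). -/
noncomputable def coverNum {n : ℕ} (B : Set (EuclideanSpace ℝ (Fin n))) (δ : ℝ) : ℕ :=
  sInf {N | ∃ U : Fin N → Set (EuclideanSpace ℝ (Fin n)),
    (∀ i, ∀ x ∈ U i, ∀ y ∈ U i, dist x y ≤ δ) ∧ B ⊆ ⋃ i, U i}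

/-- Upper Minkowski dimension. -/
noncomputable def upperMinkowski {n : ℕ} (B : Set (EuclideanSpace ℝ (Fin n))) : EReal :=
  limsup (fun δ : ℝ => ((Real.log (coverNum B δ) / Real.log (1 / δ) : ℝ) : EReal)) (𝓝[>] 0)

lemma coverNum_le {n : ℕ} {B : Set (EuclideanSpace ℝ (Fin n))} {δ : ℝ}
    {Q : Finset (EuclideanSpace ℝ (Fin n))} (h : B ⊆ ⋃ y ∈ Q, Metric.ball y (δ / 2)) :
    coverNum B δ ≤ Q.card := by
  classical
  apply Nat.sInf_le
  refine ⟨fun i => Metric.ball ((Q.equivFin.symm i : Q) : EuclideanSpace ℝ (Fin n)) (δ / 2),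
    fun i x hx y hy => ?_, fun x hx => ?_⟩
  · rw [Metric.mem_ball] at hx hy
    have := dist_triangle_right x y
      ((Q.equivFin.symm i : Q) : EuclideanSpace ℝ (Fin n))
    linarith
  · have := h hx
    simp only [Set.mem_iUnion] at this
    obtain ⟨y, hy, hxy⟩ := this
    rw [Set.mem_iUnion]
    refine ⟨Q.equivFin ⟨y, hy⟩, ?_⟩
    simpa using hxy

lemma upper_le {n : ℕ} {B : Set (EuclideanSpace ℝ (Fin n))} {θ : ℝ} (hθ : 0 ≤ θ)
    (h : ∃ C : ℝ, 0 < C ∧ ∀ δ : ℝ, 0 < δ → δ ≤ 1 → ∃ Q : Finset (EuclideanSpace ℝ (Fin n)),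
        (Q.card : ℝ) ≤ C * δ ^ (-θ) ∧ B ⊆ ⋃ y ∈ Q, Metric.ball y δ) :
    upperMinkowski B ≤ (θ : ℝ) := by
  obtain ⟨C, hC, hcov⟩ := h
  set C' : ℝ := C * 2 ^ θ + 1 with hC'
  have hC'1 : 1 ≤ C' := by
    have : 0 ≤ C * 2 ^ θ := by positivity
    linarith
  have hlim : Tendsto (fun δ : ℝ => Real.log C' / Real.log (1 / δ) + θ) (𝓝[>] 0) (𝓝 θ) := by
    have h1 : Tendsto (fun δ : ℝ => Real.log (1 / δ)) (𝓝[>] 0) atTop := by
      have h2 : Tendsto (fun δ : ℝ => δ⁻¹) (𝓝[>] 0) atTop := tendsto_inv_nhdsGT_zero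
      have h3 := Real.tendsto_log_atTop.comp h2
      refine h3.congr fun δ => ?_
      simp [Function.comp, one_div]
    have h4 := (h1.const_div_atTop (Real.log C')).add_const θ
    rw [zero_add] at h4
    exact h4
  have hlim2 : Tendsto (fun δ : ℝ => ((Real.log C' / Real.log (1 / δ) + θ : ℝ) : EReal))
      (𝓝[>] 0) (𝓝 (θ : EReal)) :=
    (continuous_coe_real_ereal.tendsto θ).comp hlim
  rw [← hlim2.limsup_eq]
  refine limsup_le_limsup ?_
  have hmem : Set.Ioo (0 : ℝ) 1 ∈ 𝓝[>] (0 : ℝ) := Ioo_mem_nhdsGT one_pos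
  filter_upwards [hmem] with δ hδ
  obtain ⟨h0, h1⟩ := hδ
  rw [EReal.coe_le_coe_iff]
  have hlog : 0 < Real.log (1 / δ) := Real.log_pos (by rw [lt_div_iff₀ h0]; linarith)
  obtain ⟨Q, hQ, hQB⟩ := hcov (δ / 2) (by linarith) (by linarith)
  have hN := coverNum_le hQB
  have hNR : (coverNum B δ : ℝ) ≤ C' * δ ^ (-θ) := by
    have h5 : (coverNum B δ : ℝ) ≤ Q.card := by exact_mod_cast hN
    have h6 : (δ / 2) ^ (-θ) = 2 ^ θ * δ ^ (-θ) := by
      rw [Real.div_rpow h0.le (by norm_num), Real.rpow_neg (by norm_num : (0 : ℝ) ≤ 2),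
        div_inv_eq_mul, mul_comm]
    rw [h6] at hQ
    have h7 : 0 < δ ^ (-θ) := Real.rpow_pos_of_pos h0 _
    calc (coverNum B δ : ℝ) ≤ C * (2 ^ θ * δ ^ (-θ)) := h5.trans hQ
      _ ≤ C' * δ ^ (-θ) := by
          rw [hC', ← mul_assoc, add_mul]
          linarith
  rw [div_add' _ _ _ hlog.ne', div_le_div_iff_of_pos_right hlog]
  rcases Nat.eq_zero_or_pos (coverNum B δ) with h8 | h8
  · rw [h8]
    simp only [Nat.cast_zero, Real.log_zero]
    have := Real.log_nonneg hC'1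
    positivity
  · calc Real.log (coverNum B δ) ≤ Real.log (C' * δ ^ (-θ)) :=
          Real.log_le_log (by exact_mod_cast h8) hNR
      _ = Real.log C' + θ * Real.log (1 / δ) := by
          rw [Real.log_mul (by positivity) (Real.rpow_pos_of_pos h0 _).ne', Real.log_rpow h0,
            one_div, Real.log_inv]
          ring


end Pool.Agent.Helper20.GT2
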