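import Pool.Agent.Helper20.GT.Aff

/-!
# Finite unions of geometric progressions
-/

set_option autoImplicit false

open Finset Filter Topology
open scoped Classical

namespace Pool.Agent.Helper20.GT

/-- The numbers `a + b / L ^ j` and `a - b / L ^ j`, `j = 0, 1, 2, …`. -/
def progression (a b L : ℝ) : Set ℝ := {t | ∃ j : ℕ, t = a + b / L ^ j ∨ t = a - b / L ^ j}

lemma prog_sub (a b L : ℝ) : progression a b L ⊆ (fun q => a + b * q) '' base L := by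
  rintro t ⟨j, rfl | rfl⟩
  · exact ⟨1 / L ^ j, Or.inr ⟨j, Or.inl rfl⟩, by simp only []; ring⟩
  · exact ⟨-(1 / L ^ j), Or.inr ⟨j, Or.inr rfl⟩, by simp only []; ring⟩

lemma net_empty : NET ∅ := fun _ _ =>
  ⟨1, le_rfl, fun δ hδ _ => ⟨∅, by
    rw [Finset.card_empty, Nat.cast_zero]
    exact mul_nonneg zero_le_one (Real.rpow_nonneg hδ.le _), by simp, by simp⟩⟩

lemma net_iUnion (N : S_NET) {ι : Type} (s : Finset ι) (Q : ι → Set ℝ) (h : ∀ i ∈ s, NET (Q i)) :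
    NET (⋃ i ∈ s, Q i) := by
  induction s using Finset.induction_on with
  | empty => simpa using net_empty
  | insert i s hi IH =>
    rw [Finset.set_biUnion_insert]
    exact N.2.2.2 _ _ (h i (Finset.mem_insert_self i s))
      (IH fun k hk => h k (Finset.mem_insert_of_mem hk))

/-- the big set of multipliers -/
def big (m : ℕ) (a b L : Fin m → ℝ) (F : Finset ℝ) : Set ℝ :=
  (⋃ f ∈ F, {f}) ∪ ⋃ i ∈ (Finset.univ : Finset (Fin m)), (fun q => a i + b i * q) '' base (L i)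

lemma sub_big (m : ℕ) (a b L : Fin m → ℝ) (F : Finset ℝ) :
    ((F : Set ℝ) ∪ ⋃ i, progression (a i) (b i) (L i)) ⊆ big m a b L F := by
  rintro t (ht | ht)
  · left
    rw [Set.mem_iUnion₂]
    exact ⟨t, ht, rfl⟩
  · right
    rw [Set.mem_iUnion] at ht
    obtain ⟨i, hi⟩ := ht
    rw [Set.mem_iUnion₂]
    exact ⟨i, Finset.mem_univ i, prog_sub _ _ _ hi⟩

lemma HasPattern.mono {n : ℕ} {Q R : Set ℝ} {B : Set (EuclideanSpace ℝ (Fin n))}
    (h : HasPattern R B) (hQ : Q ⊆ R) : HasPattern Q B := fun r hr => by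
  obtain ⟨x, hx⟩ := h r hr
  exact ⟨x, fun q hq => hx q (hQ hq)⟩

theorem main (CORE : S_CORE) (GPB : S_GPB) (UNI : S_UNI) (N : S_NET) (M : S_MS) (FIN : S_FIN)
    (m : ℕ) (a b L : Fin m → ℝ) (hL : ∀ i, 1 < L i) (F : Finset ℝ) :
    ∃ θ : ℝ, 0 ≤ θ ∧ θ < 1 ∧
      ∀ n : ℕ, ∃ B : Set (EuclideanSpace ℝ (Fin n)), Bornology.IsBounded B ∧
        HasPattern ((F : Set ℝ) ∪ ⋃ i, progression (a i) (b i) (L i)) B ∧
        ∃ C : ℝ, 0 < C ∧ ∀ δ : ℝ, 0 < δ → δ ≤ 1 → ∃ P : Finset (EuclideanSpace ℝ (Fin n)),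
          (P.card : ℝ) ≤ C * δ ^ (-(θ * n)) ∧ B ⊆ ⋃ y ∈ P, Metric.ball y δ := by
  have hb : ∀ L : ℝ, 1 < L → SQ (base L) := pow aff UNI (GPB CORE)
  have h1 : SQ (big m a b L F) :=
    UNI _ _ (sq_iUnion UNI F _ fun f _ => sq_point f)
      (sq_iUnion UNI Finset.univ _ fun i _ => aff _ _ _ (hb _ (hL i)))
  have h2 : NET (big m a b L F) :=
    N.2.2.2 _ _ (net_iUnion N F _ fun f _ => N.2.1 f)
      (net_iUnion N Finset.univ _ fun i _ => N.2.2.1 _ _ _ (N.1 _ (hL i)))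
  obtain ⟨θ, h0, h3, h4⟩ := FIN M _ h1 h2
  refine ⟨θ, h0, h3, fun n => ?_⟩
  obtain ⟨B, hB, hP, hC⟩ := h4 n
  exact ⟨B, hB, hP.mono (sub_big m a b L F), hC⟩

end Pool.Agent.Helper20.GT
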