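import Pool.Agent.Helper20.GT.Aff2
import Pool.Agent.Helper20.GT.Main

/-!
# Finite unions of geometric progressions, explicit exponents
-/

set_option autoImplicit false

open Finset Filter Topology
open scoped Classical

namespace Pool.Agent.Helper20.GT2

/-- The numbers `a + b / L ^ j` and `a - b / L ^ j`, `j = 0, 1, 2, …`. -/
def progression (a b L : ℝ) : Set ℝ := {t | ∃ j : ℕ, t = a + b / L ^ j ∨ t = a - b / L ^ j}

lemma prog_sub (a b L : ℝ) : progression a b L ⊆ (fun q => a + b * q) '' base L := by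
  rintro t ⟨j, rfl | rfl⟩
  · exact ⟨1 / L ^ j, Or.inr ⟨j, Or.inl rfl⟩, by simp only []; ring⟩
  · exact ⟨-(1 / L ^ j), Or.inr ⟨j, Or.inr rfl⟩, by simp only []; ring⟩

section
variable (m : ℕ) (a b L : Fin m → ℝ) (F : Finset ℝ)

/-- the pieces -/
def piece : {f // f ∈ F} ⊕ Fin m → Set ℝ
  | Sum.inl f => {(f : ℝ)}
  | Sum.inr i => (fun q => a i + b i * q) '' base (L i)

/-- their costs -/
noncomputable def cost : {f // f ∈ F} ⊕ Fin m → ℝ
  | Sum.inl _ => 1
  | Sum.inr i => 15 * (1 + 1 / Real.log (L i))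

lemma sum_cost : ∑ i, cost m L F i = F.card + 15 * ∑ i, (1 + 1 / Real.log (L i)) := by
  rw [Fintype.sum_sum_type, Finset.mul_sum]
  congr 1
  unfold cost
  rw [Finset.sum_const, Finset.card_univ, Fintype.card_coe, nsmul_eq_mul, mul_one]

lemma sub_pieces : ((F : Set ℝ) ∪ ⋃ i, progression (a i) (b i) (L i)) ⊆
    ⋃ i ∈ (Finset.univ : Finset ({f // f ∈ F} ⊕ Fin m)), piece m a b L F i := by
  rintro t (ht | ht)
  · rw [Set.mem_iUnion₂]
    exact ⟨Sum.inl ⟨t, ht⟩, Finset.mem_univ _, rfl⟩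
  · rw [Set.mem_iUnion] at ht
    obtain ⟨i, hi⟩ := ht
    rw [Set.mem_iUnion₂]
    exact ⟨Sum.inr i, Finset.mem_univ _, prog_sub _ _ _ hi⟩

lemma cost_ge (hL : ∀ i, 1 < L i) (i : {f // f ∈ F} ⊕ Fin m) : 1 ≤ cost m L F i := by
  rcases i with f | i
  · exact le_rfl
  · have h := Real.log_pos (hL i)
    have : 0 < 1 / Real.log (L i) := by positivity
    show (1 : ℝ) ≤ 15 * (1 + 1 / Real.log (L i))
    linarith

lemma sq_piece (UNI : S_UNI) (h : ∀ L : ℝ, 5 / 2 < L → SQ (14 / 15) (base L)) (hL : ∀ i, 1 < L i)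
    (i : {f // f ∈ F} ⊕ Fin m) : SQ (1 - 1 / cost m L F i) (piece m a b L F i) := by
  rcases i with f | i
  · have e : (1 : ℝ) - 1 / cost m L F (Sum.inl f) = 0 := by
      show (1 : ℝ) - 1 / 1 = 0
      norm_num
    rw [e]
    exact sq_point _
  · exact aff _ _ (sq_base UNI h (hL i))

lemma net_piece (N : GT.S_NET) (hL : ∀ i, 1 < L i)
    (i : {f // f ∈ F} ⊕ Fin m) : GT.NET (piece m a b L F i) := by
  rcases i with f | i
  · exact N.2.1 _
  · exact N.2.2.1 _ _ _ (N.1 _ (hL i))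

lemma HasPattern.mono {n : ℕ} {Q R : Set ℝ} {B : Set (EuclideanSpace ℝ (Fin n))}
    (h : HasPattern R B) (hQ : Q ⊆ R) : HasPattern Q B := fun r hr => by
  obtain ⟨x, hx⟩ := h r hr
  exact ⟨x, fun q hq => hx q (hQ hq)⟩

lemma one_le_cost (hL : ∀ i, 1 < L i) {E : ℝ}
    (hE : E = F.card + 15 * ∑ i, (1 + 1 / Real.log (L i))) (hE0 : 0 < E) : 1 ≤ E := by
  have hs : (Finset.univ : Finset ({f // f ∈ F} ⊕ Fin m)).Nonempty := by
    by_contra h0
    rw [Finset.not_nonempty_iff_eq_empty] at h0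
    rw [← sum_cost, h0, Finset.sum_empty] at hE
    exact hE0.ne' hE
  rw [hE, ← sum_cost]
  obtain ⟨i, hi⟩ := hs
  exact (cost_ge m L F hL i).trans (Finset.single_le_sum (f := cost m L F)
    (fun l _ => by linarith [cost_ge m L F hL l]) hi)

theorem main (CORE : S_CORE) (GPB : S_GPB) (UNI : S_UNI) (N : GT.S_NET) (M : S_MS) (FIN : S_FIN)
    (hL : ∀ i, 1 < L i) {E : ℝ} (hE : E = F.card + 15 * ∑ i, (1 + 1 / Real.log (L i))) (hE0 : 0 < E)
    (n : ℕ) : ∃ B : Set (EuclideanSpace ℝ (Fin n)), Bornology.IsBounded B ∧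
        HasPattern ((F : Set ℝ) ∪ ⋃ i, progression (a i) (b i) (L i)) B ∧
        ∃ C : ℝ, 0 < C ∧ ∀ δ : ℝ, 0 < δ → δ ≤ 1 → ∃ P : Finset (EuclideanSpace ℝ (Fin n)),
          (P.card : ℝ) ≤ C * δ ^ (-((1 - 1 / (5 * E)) * n)) ∧ B ⊆ ⋃ y ∈ P, Metric.ball y δ := by
  have hs : (Finset.univ : Finset ({f // f ∈ F} ⊕ Fin m)).Nonempty := by
    by_contra h0
    rw [Finset.not_nonempty_iff_eq_empty] at h0
    rw [← sum_cost, h0, Finset.sum_empty] at hE
    exact hE0.ne' hE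
  have h1 := sq_iUnion UNI Finset.univ hs (piece m a b L F) (cost m L F)
    (fun i _ => cost_ge m L F hL i) (fun i _ => sq_piece m a b L F UNI (GPB CORE) hL i)
  rw [sum_cost, ← hE] at h1
  have h2 : NET (⋃ i ∈ (Finset.univ : Finset ({f // f ∈ F} ⊕ Fin m)), piece m a b L F i) :=
    GT.net_iUnion N _ _ fun i _ => net_piece m a b L F N hL i
  have hE1 : 1 ≤ E := by
    rw [hE, ← sum_cost]
    obtain ⟨i, hi⟩ := hs
    exact (cost_ge m L F hL i).trans (Finset.single_le_sum (f := cost m L F)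
      (fun l _ => by linarith [cost_ge m L F hL l]) hi)
  have hi1 : 1 / E ≤ 1 := by rw [div_le_one hE0]; exact hE1
  have hi0 : 0 < 1 / E := by positivity
  have e5 : 1 / (5 * E) = 1 / E / 5 := by
    field_simp
  obtain ⟨B, hB, hP, hC⟩ := FIN M (1 - 1 / E) (1 - 1 / (5 * E)) _ (by linarith) (by linarith)
    (by rw [e5]; linarith) h1 h2 n
  exact ⟨B, hB, hP.mono (sub_pieces m a b L F), hC⟩

end

end Pool.Agent.Helper20.GT2
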