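import Mathlib

/-!
# Patterns made of geometric progressions (project GT, MP_4b405e_nt)

`SQ Q`: at every scale `M` the lines `d ↦ x d + q d`, `q ∈ Q`, meet few unit cells, uniformly in `q ∈ Q`.
-/

set_option autoImplicit false

open Finset Filter Topology
open scoped Classical

namespace Pool.Agent.Helper20.GT

/-- the unit cells of `x d + q d`, `d < M` -/
noncomputable def cells (M : ℕ) (x : ℕ → ℝ) (q : ℝ) : Finset ℤ :=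
  (Finset.range M).image fun d => ⌊x d + q * d⌋

def SQ (Q : Set ℝ) : Prop :=
  ∃ θ C : ℝ, 0 ≤ θ ∧ θ < 1 ∧ 1 ≤ C ∧ (∀ q ∈ Q, |q| ≤ C) ∧
    ∀ M : ℕ, 1 ≤ M → ∃ x : ℕ → ℝ, (∀ d < M, |x d| ≤ C * M) ∧
      ∀ q ∈ Q, ((cells M x q).card : ℝ) ≤ C * (M : ℝ) ^ θ

/-- `0` and the numbers `± L ^ (-j)` -/
def base (L : ℝ) : Set ℝ := {t | t = 0 ∨ ∃ j : ℕ, t = 1 / L ^ j ∨ t = -(1 / L ^ j)}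

/-- AFF -/
def S_AFF : Prop := ∀ (Q : Set ℝ) (a b : ℝ), SQ Q → SQ ((fun q => a + b * q) '' Q)

/-- UNI -/
def S_UNI : Prop := ∀ Q R : Set ℝ, SQ Q → SQ R → SQ (Q ∪ R)

/-- CORE: the reversal of digits in base `L` -/
def S_CORE : Prop := ∀ L : ℝ, 5 / 2 < L → ∃ θ c C : ℝ, 0 ≤ θ ∧ θ < 1 ∧ 0 < c ∧ c ≤ 1 ∧ 1 ≤ C ∧
  ∀ M : ℕ, 1 ≤ M → ∃ x : ℕ → ℝ, (∀ d < M, |x d| ≤ C * M) ∧
    ∀ j : ℕ, L ^ j ≤ (M : ℝ) ^ c →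
      ((cells M x (1 / L ^ j)).card : ℝ) ≤ C * (M : ℝ) ^ θ ∧
      ((cells M x (-(1 / L ^ j))).card : ℝ) ≤ C * (M : ℝ) ^ θ

/-- GPB -/
def S_GPB : Prop := S_CORE → ∀ L : ℝ, 5 / 2 < L → SQ (base L)

/-- POW -/
def S_POW : Prop := S_AFF → S_UNI → (∀ L : ℝ, 5 / 2 < L → SQ (base L)) → ∀ L : ℝ, 1 < L → SQ (base L)

/-- MS: all scales at once -/
def S_MS : Prop := ∀ Q : Set ℝ, SQ Q → ∃ θ C : ℝ, 0 ≤ θ ∧ θ < 1 ∧ 1 ≤ C ∧ (∀ q ∈ Q, |q| ≤ C) ∧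
  ∃ x : ℝ → ℝ, (∀ r ∈ Set.Icc (0 : ℝ) 1, |x r| ≤ C) ∧
    ∀ q ∈ Q, ∀ δ : ℝ, 0 < δ → δ ≤ 1 → ∃ P : Finset ℝ, (P.card : ℝ) ≤ C * δ ^ (-θ) ∧
      ∀ r ∈ Set.Icc (0 : ℝ) 1, ∃ p ∈ P, |x r + q * r - p| ≤ δ

/-- `Q` can be covered by few intervals -/
def NET (Q : Set ℝ) : Prop :=
  ∀ ε : ℝ, 0 < ε → ∃ C : ℝ, 1 ≤ C ∧ ∀ δ : ℝ, 0 < δ → δ ≤ 1 → ∃ F : Finset ℝ,
    (F.card : ℝ) ≤ C * δ ^ (-ε) ∧ (F : Set ℝ) ⊆ Q ∧ ∀ q ∈ Q, ∃ p ∈ F, |q - p| ≤ δ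

/-- NET -/
def S_NET : Prop :=
  (∀ L : ℝ, 1 < L → NET (base L)) ∧ (∀ a : ℝ, NET {a}) ∧
  (∀ (Q : Set ℝ) (a b : ℝ), NET Q → NET ((fun q => a + b * q) '' Q)) ∧
  (∀ Q R : Set ℝ, NET Q → NET R → NET (Q ∪ R))

/-- for every `r ∈ [0,1]^n` the set `B` contains all the points `x + q r`, `q ∈ Q`, for some `x` -/
def HasPattern {n : ℕ} (Q : Set ℝ) (B : Set (EuclideanSpace ℝ (Fin n))) : Prop :=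
  ∀ r : EuclideanSpace ℝ (Fin n), (∀ i, r i ∈ Set.Icc (0 : ℝ) 1) →
    ∃ x : EuclideanSpace ℝ (Fin n), ∀ q ∈ Q, x + q • r ∈ B

/-- FIN -/
def S_FIN : Prop := S_MS → ∀ Q : Set ℝ, SQ Q → NET Q → ∃ θ : ℝ, 0 ≤ θ ∧ θ < 1 ∧
  ∀ n : ℕ, ∃ B : Set (EuclideanSpace ℝ (Fin n)), Bornology.IsBounded B ∧ HasPattern Q B ∧
    ∃ C : ℝ, 0 < C ∧ ∀ δ : ℝ, 0 < δ → δ ≤ 1 → ∃ P : Finset (EuclideanSpace ℝ (Fin n)),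
      (P.card : ℝ) ≤ C * δ ^ (-(θ * n)) ∧ B ⊆ ⋃ y ∈ P, Metric.ball y δ

end Pool.Agent.Helper20.GT
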