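import Mathlib

/-!
# Patterns made of geometric progressions, with explicit exponents (project GT2, MP_4b405e_nt)

The same as `Stm.lean`, with the exponents in the statements: a point costs `1`, a geometric progression
of ratio `L > 5 / 2` costs `15`, costs are additive.
-/

set_option autoImplicit false

open Finset Filter Topology
open scoped Classical

namespace Pool.Agent.Helper20.GT2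

/-- the unit cells of `x d + q d`, `d < M` -/
noncomputable def cells (M : ℕ) (x : ℕ → ℝ) (q : ℝ) : Finset ℤ :=
  (Finset.range M).image fun d => ⌊x d + q * d⌋

def SQ (θ : ℝ) (Q : Set ℝ) : Prop :=
  ∃ C : ℝ, 1 ≤ C ∧ (∀ q ∈ Q, |q| ≤ C) ∧
    ∀ M : ℕ, 1 ≤ M → ∃ x : ℕ → ℝ, (∀ d < M, |x d| ≤ C * M) ∧
      ∀ q ∈ Q, ((cells M x q).card : ℝ) ≤ C * (M : ℝ) ^ θ

/-- `0` and the numbers `± L ^ (-j)` -/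
def base (L : ℝ) : Set ℝ := {t | t = 0 ∨ ∃ j : ℕ, t = 1 / L ^ j ∨ t = -(1 / L ^ j)}

/-- UNI2: costs are additive -/
def S_UNI : Prop := ∀ (Q R : Set ℝ) (θ₁ θ₂ α : ℝ), 0 ≤ θ₁ → θ₁ ≤ 1 → 0 ≤ θ₂ → θ₂ ≤ 1 → 0 ≤ α → α ≤ 1 →
  SQ θ₁ Q → SQ θ₂ R → SQ (max (1 - α * (1 - θ₁)) (1 - (1 - α) * (1 - θ₂))) (Q ∪ R)

/-- CORE2: the reversal of digits in base `L` -/
def S_CORE : Prop := ∀ L : ℝ, 5 / 2 < L → ∃ C : ℝ, 1 ≤ C ∧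
  ∀ M : ℕ, 1 ≤ M → ∃ x : ℕ → ℝ, (∀ d < M, |x d| ≤ C * M) ∧
    ∀ j : ℕ, L ^ j ≤ (M : ℝ) ^ (1 / 14 : ℝ) →
      ((cells M x (1 / L ^ j)).card : ℝ) ≤ C * (M : ℝ) ^ (13 / 14 : ℝ) ∧
      ((cells M x (-(1 / L ^ j))).card : ℝ) ≤ C * (M : ℝ) ^ (13 / 14 : ℝ)

/-- GPB2 -/
def S_GPB : Prop := S_CORE → ∀ L : ℝ, 5 / 2 < L → SQ (14 / 15) (base L)

/-- MS2: all scales at once -/
def S_MS : Prop := ∀ (θ : ℝ) (Q : Set ℝ), 0 ≤ θ → θ < 1 → SQ θ Q → ∃ C : ℝ, 1 ≤ C ∧ (∀ q ∈ Q, |q| ≤ C) ∧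
  ∃ x : ℝ → ℝ, (∀ r ∈ Set.Icc (0 : ℝ) 1, |x r| ≤ C) ∧
    ∀ q ∈ Q, ∀ δ : ℝ, 0 < δ → δ ≤ 1 → ∃ P : Finset ℝ, (P.card : ℝ) ≤ C * δ ^ (-(1 - (1 - θ) / 4)) ∧
      ∀ r ∈ Set.Icc (0 : ℝ) 1, ∃ p ∈ P, |x r + q * r - p| ≤ δ

/-- `Q` can be covered by few intervals (the same as `GT.NET`) -/
def NET (Q : Set ℝ) : Prop :=
  ∀ ε : ℝ, 0 < ε → ∃ C : ℝ, 1 ≤ C ∧ ∀ δ : ℝ, 0 < δ → δ ≤ 1 → ∃ F : Finset ℝ,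
    (F.card : ℝ) ≤ C * δ ^ (-ε) ∧ (F : Set ℝ) ⊆ Q ∧ ∀ q ∈ Q, ∃ p ∈ F, |q - p| ≤ δ

/-- for every `r ∈ [0,1]^n` the set `B` contains all the points `x + q r`, `q ∈ Q`, for some `x` -/
def HasPattern {n : ℕ} (Q : Set ℝ) (B : Set (EuclideanSpace ℝ (Fin n))) : Prop :=
  ∀ r : EuclideanSpace ℝ (Fin n), (∀ i, r i ∈ Set.Icc (0 : ℝ) 1) →
    ∃ x : EuclideanSpace ℝ (Fin n), ∀ q ∈ Q, x + q • r ∈ B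

/-- FIN2 -/
def S_FIN : Prop := S_MS → ∀ (θ η : ℝ) (Q : Set ℝ), 0 ≤ θ → θ < 1 → 1 - (1 - θ) / 4 < η → SQ θ Q → NET Q →
  ∀ n : ℕ, ∃ B : Set (EuclideanSpace ℝ (Fin n)), Bornology.IsBounded B ∧ HasPattern Q B ∧
    ∃ C : ℝ, 0 < C ∧ ∀ δ : ℝ, 0 < δ → δ ≤ 1 → ∃ P : Finset (EuclideanSpace ℝ (Fin n)),
      (P.card : ℝ) ≤ C * δ ^ (-(η * n)) ∧ B ⊆ ⋃ y ∈ P, Metric.ball y δ

end Pool.Agent.Helper20.GT2
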